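import Pool.Agent.N571.TLF.Closed

/-!
# The Jones polynomials of the diagrams obtained by inserting powers of braids with dependent exponents

Diagrams (starting library `Pool.Agent.H891R2.Jones.Diagram`): `Diagram P` (oriented link diagrams with
marked points `P`, planar or not), `Diagram.IsClosed` (the pieces fit together to closed oriented curves),
`Diagram.fPoly` (the normalised bracket `(-A^{-3})^{w(D)} ⟨D⟩`, a Laurent polynomial in `A = T 1`),
`Outer m` (the part of an oriented diagram outside a box through which `m` strands run, with arbitrary
directions `up`), `Outer.close` (fills the rest of the box with vertical strands).  Starting library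
`Pool.Agent.W639.RB.Defs`: `Letter m` (the letters `σ_i^{±1}` of the braid group on `m` strands; the second
component of a letter is the number `i` of the first one of the two strands, counted from `0`).

Definitions of `Pool.Agent.Y463.SK.Defs` (starting library), for words `w` (lists of letters): `powW w n` (the
power `w^n`, `n ∈ ℤ`), `permW w` (the permutation of the strands), `IsPure w` (`permW w = 1`: `w` is a pure
braid), `dia O w` (the diagram obtained by drawing `w` in the box of `O` and filling the rest of the box with
vertical strands), `multiW w v n = w_1^{n_1} v_1 w_2^{n_2} v_2 ⋯ w_k^{n_k} v_k`.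

New definition (`Pool.Agent.N571.TLF.Fam`): `expo Λ s q` is the vector of the exponents
`n_i = ∑_j Λ_{ij} q_j + s_i`.

Proof.  Put `π = A + 1`.  Modulo `π` every pure braid acts trivially, so a pure braid `w` on `n` strands, times a
unit `u ≡ 1` modulo `π` from the writhe, satisfies `u w - 1 = π b` in the Temperley-Lieb algebra.  The left ideals
spanned by the words of generators with a given ending form a filtration by `⌊n/2⌋ + 1` layers spanned by
at most `C(n, t) - C(n, t - 1)` elements each.  The theorem of Cayley and Hamilton on the layers gives a monic
polynomial `p` of degree at most `C(n, ⌊n/2⌋)` with `p(u w - 1) = 0` whose coefficient of degree `deg p - j` is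
divisible by `π^j`.  Polynomials of this kind exist for products of commuting operators, too; so along
every coordinate direction of the parameter space the difference operator satisfies an equation of this kind,
of degree `d_j`.  Such a sequence cannot take a value more than `d_j` times unless it is constant.
-/

set_option autoImplicit false

namespace Pool.Agent.Results.MP_42db45_gt.AffineBraidPowers

open Finset LaurentPolynomial Pool.Agent.H891R2.Jones Pool.Agent.W639.RB Pool.Agent.Y463.SK
  Pool.Agent.N571.TLF

open Classical in
/-- Let `O` be the part of a link diagram outside a box through which `m ≥ 1` strands run, and let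
`w_1, …, w_k` and `v_1, …, v_k` be braid words on `m` strands, where `w_i` only uses the `n_i` strands with the
numbers `off_i, …, off_i + n_i - 1`.  Let `Λ` be an integral `k × r` matrix such that all the braids
`w_i^{Λ_{ij}}` are pure (no condition if the `w_i` are pure), and `s ∈ ℤ^k`.  For `q ∈ ℤ^r` let `D(q)` be the
diagram obtained by drawing the braid `w_1^{a_1} v_1 w_2^{a_2} v_2 ⋯ w_k^{a_k} v_k`, `a = Λ q + s`, in the box.

* If the outside with vertical strands in the box is a closed oriented diagram and the permutation of the braid
  preserves the directions of the strands for `q = 0`, then all `D(q)` are closed oriented diagrams.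
* Let `F` be any Laurent polynomial, for example `1`, the normalised bracket of the unknot.  Then either all
  the `D(q)`, `q ∈ ℤ^r`, have the normalised bracket `F`, or for all finite sets `A_1, …, A_r` of integers at
  most `∑_j d_j ∏_{l ≠ j} |A_l|` of the `∏_l |A_l|` diagrams `D(q)`, `q ∈ A_1 × ⋯ × A_r`, have it, where `d_j` is
  the product of the binomial coefficients `C(n_i, ⌊n_i / 2⌋)` for those `i` with `Λ_{ij} ≠ 0`.

For `r = 1` (one parameter, for instance the braids `w^q v w^{-q} v'` or `w_1^{2q} v_1 w_2^{3q} v_2`) every
Laurent polynomial is the normalised bracket of at most `d_1` of the diagrams `D(q)`, `q ∈ ℤ`, or of all. -/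
theorem result (m k r : ℕ) (hm : 0 < m) (O : Outer m) (w v : Fin k → List (Letter m)) 
    (Λ : Fin k → Fin r → ℤ) (s : Fin k → ℤ) (hΛ : ∀ i j, IsPure (powW (w i) (Λ i j))) 
    (off n : Fin k → ℕ) (hn : ∀ i, 0 < n i) (hoff : ∀ i, off i + n i ≤ m) 
    (hw : ∀ i, ∀ x ∈ w i, off i ≤ x.2 ∧ (x.2 : ℕ) + 1 < off i + n i) (F : ℤ[T;T⁻¹]) :
    (O.close.IsClosed → (∀ j, O.up (permW (multiW w v s) j) = O.up j) → 
      ∀ q : Fin r → ℤ, (dia O (multiW w v (expo Λ s q))).IsClosed) ∧ 
    ((∀ q : Fin r → ℤ, (dia O (multiW w v (expo Λ s q))).fPoly = F) ∨
      ∀ A : Fin r → Finset ℤ, ((Fintype.piFinset A).filter 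
        (fun q => (dia O (multiW w v (expo Λ s q))).fPoly = F)).card ≤ 
          ∑ j, (∏ i with Λ i j ≠ 0, (n i).choose (n i / 2)) * ∏ l ∈ univ.erase j, (A l).card) := 
  ⟨fun hO hv q => family_closed O w v Λ s hΛ hO hv q, family hm O w v Λ s hΛ off n hn hoff hw F⟩

end Pool.Agent.Results.MP_42db45_gt.AffineBraidPowers
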