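import Pool.Agent.N569.AB.Mirror

/-!
# Arborescent links which are regular at one end of the Jones polynomial

Starting library: `Pool.Agent.H891R2.Jones.*` (diagrams, `D.fPoly`), `Pool.Agent.H891R2.MT.Defs`
(`UDiagram`, `Orients D U`: `D` is the unoriented diagram `U` with directions),
`Pool.Agent.R811.Abc.*` (`Outer4`: a diagram of a 2-tangle `S`; `IsTangle S`; `plain`: two horizontal
strands; `S.close false`: the upper ends are joined with each other and the lower ends too; `alpha S`: the
coefficient `α` of the two horizontal strands in the bracket `α [=] + β [)(]` of `S`; `brV S`: the bracket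
of the other closure, so `brV S = α + d β`).

New (`Pool.Agent.N569.AB.Defs`):

* `Tree`: weighted plane rooted trees; some subtrees may be replaced by arbitrary tangles (`insert`);
  `t.tangle`: the sum of a row of `|a|` crossings, `a` the weight of the root (`rowN`, `cross`, `hsum`),
  and of the tangles of the subtrees, each turned by a quarter turn (`rot`);
  `t.link = t.tangle.close false`, the arborescent link of the weighted tree (Conway's algebraic links);
* `t.deg`: the weight of the root plus the number of its children `c` with `c.deg < 0`; `t.kids`: the
  number of children; `t.mirror`: the tree with the opposite weights; `t.Plain`: no tangle is inserted;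
* `t.Regular`, `t.RootOk`: every vertex `c` apart from the root has `2 ≤ deg c`, or `deg c ≤ -1` (and `c`
  is not a leaf of weight `-1`); inserted tangles satisfy `Kid`; the root has `deg ≠ 1`, and in the case
  `deg = 0` it has at least two children.  So, given the subtrees, at most two values of the weight of a
  vertex are excluded; weights of both signs may be mixed in an arbitrary way.

For example, a tree is regular if every vertex apart from the root has weight `≥ 2` or `≤ - (number of its
children) - 1` (`Tree.Heavy.regular` in `Pool.Agent.N569.AB.Mirror`).

Proof.  Let `α`, `β` be the coefficients of the tangle of a subtree and `y = α + d β`.  A vertex with `D =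
deg` has `α = u A^m (1 + b A^4 + ⋯)`, `y = ± u A^(m-4D) (1 + b' A^4 + c' A^8 + ⋯)` with `b`, `b' ≤ 0` (`u = ±
1`), and this is turned into the same form by a quarter turn if `D ≥ 2` (two orders of cancellation in
`α + d β` against `d α + β`, three coefficients are needed) or `D ≤ -1`.  So the bracket of the link is
`± A^m (1 + b A^4 + c A^8 + ⋯)` with `b ≤ -1`, or `b = 0` and `c = 1`; for the unlink with `n` components the
same numbers are `b = n - 1 ≥ 0` and `c = (n - 1)(n - 2)/2 = 0` for `b = 0`.
-/

set_option autoImplicit false

namespace Pool.Agent.Results.MP_42db45_gt.ArborescentLinks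

open LaurentPolynomial Pool.Agent.H891R2.Jones Pool.Agent.H891R2.MT
open Pool.Agent.N569.AB

/-- Let `D` be an oriented diagram of the arborescent link of a weighted tree `t` (with tangles inserted).

(1) If `t` is regular, then the three lowest coefficients of the normalised bracket (in the degrees `m`, `m +
4`, `m + 8`) are `u`, `u b`, `u c` with `u = ± 1` and `b ≤ -1`, or `b = 0` and `c = 1`.
(2) If `t` or the mirror image of `t` is regular, then the normalised bracket is not `1`, and it
is not of the form `± A^n d^j` (`d = -A^2 - A^(-2)`), so it is not the one of an unlink. -/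
theorem result (t : Tree) (D : Diagram t.tangle.P) (hD : Orients D t.link) :
    (t.Regular → t.RootOk → ∃ m u b c : ℤ, (u = 1 ∨ u = -1) ∧
      E D.fPoly m u (u * b) (u * c) ∧ (b ≤ -1 ∨ (b = 0 ∧ c = 1))) ∧
    ((t.Regular ∧ t.RootOk) ∨ (t.Plain ∧ t.mirror.Regular ∧ t.mirror.RootOk) →
      D.fPoly ≠ 1 ∧
        ∀ (ε n : ℤ) (j : ℕ), (ε = 1 ∨ ε = -1) → D.fPoly ≠ C ε * T n * (-T 2 - T (-2)) ^ j) := by
  have : Nonempty t.tangle.P := ⟨t.tangle.corner false false⟩
  refine ⟨fun h1 h2 => Low.fPoly D t.link hD (low_tree t h1 h2), fun h => ⟨?_, ?_⟩⟩
  · intro h1
    apply not_unlink t D hD h 1 0 (Or.inl rfl) 0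
    rw [h1]
    simp
  · intro ε n j hε
    exact not_unlink t D hD h ε n hε j

end Pool.Agent.Results.MP_42db45_gt.ArborescentLinks
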