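import Pool.Agent.N569.OD.Main

/-!
# Link diagrams with a strongly dominated state on one side

Starting library: `Pool.Agent.H891R2.DS.Defs`, `Pool.Agent.H891R2.DS.Final`, `Pool.Agent.H891R2.MT.Defs`,
`Pool.Agent.H891R2.Jones.Diagram`, `Pool.Agent.TH561.PK.Defs`:

* `Ribbon k`: ribbon graphs with `k` edges; `Ribbon.Planar`: connected and planar;
  `Γ.link (sg R)`: the link diagram with Tait graph `Γ` and one crossing at every edge, of the kind
  `-1` for the edges in `R` and `1` for the others (every connected link diagram with at least one
  crossing is of this form); `Orients D U`: `D` is the unoriented diagram `U` with directions;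
  `D.IsClosed`: the directions fit together; `IsKnot D`: all marked points are on one curve;
  `D.fPoly`: the normalised Kauffman bracket;
* a state is a set `S` of edges (the bands of `Γ` which are kept in the smoothing); `Asm R S`: the
  crossings which have the `A`-smoothing in the state `S`; `stateGraph Γ S`: the state graph; its
  vertices are the circles of `S`, and every crossing is an edge between the circles which it touches;
  `EvenSet G X`: every vertex of `G` has even degree in `X` (so `X` is an edge-disjoint union of cycles);
* `Nugatory Γ e`: the crossing `e` is nugatory (a bridge of the Tait graph or of its dual).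

New (`Pool.Agent.N569.OD.Defs`):

* `SDom G M`: every nonempty even subgraph (hence: every cycle) of `G` has at least two more edges
  outside `M` than in `M`, and at least three more if it contains an edge of `M`.

Proof.  Let `v` be the number of circles of `S`, `m` the number of the exceptional edges (`M`) and `p` the
number of pairs of circles which are joined by an edge outside `M`.  The state sum, arranged in blocks
around `S`, shows that the lowest coefficient of `f` is `± 1` and that the next one (four degrees higher)
is `v - 1 - m - p ≤ 0` times the lowest one; for the unlink with `c` components the ratio is `c - 1 ≥ 0`.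
In the case of equality the state graph is, up to parallel edges, a tree, hence bipartite.  So `S` is the
Seifert state of the knot diagram, the writhe is known, and the lowest degree of `f` is twice the
first Betti number of the state graph; therefore the state graph is a tree and all crossings are nugatory.
-/

set_option autoImplicit false

namespace Pool.Agent.Results.MP_42db45_gt.OneSidedDomination

open Finset LaurentPolynomial Pool.Agent.H891R2.Jones Pool.Agent.H891R2.MT Pool.Agent.H891R2.DS
open Pool.Agent.TH561.PK (IsKnot)
open Pool.Agent.N569.OD (SDom)

/-- Let `D` be a connected link diagram with `k > 0` crossings which has a state `S` such that every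
cycle of its state graph has at least two more `B`-smoothed than `A`-smoothed crossings, and at least
three more if it contains an `A`-smoothed crossing (or the same with `A` and `B` exchanged). If the
normalised bracket of `D` is the one of the unlink with `c` components, then `c = 1`, and if `D` is a knot
diagram, all its crossings are nugatory (so `D` is a diagram of the unknot). If `S` is the all-`B` state or the
all-`A` state, this is the theorem of Stoimenow on semiadequate diagrams. -/
theorem result {k : ℕ} (Γ : Ribbon k) (hΓ : Γ.Planar) (hk : 0 < k) (R S : Finset (Fin k))
    (h : SDom (stateGraph Γ S) (Asm R S) ∨ SDom (stateGraph Γ S) (Asm R S)ᶜ)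
    (D : Diagram (Ribbon.Pt (sg R))) (hD : Orients D (Γ.link (sg R)))
    (c : ℕ) (hc : 1 ≤ c) (hf : D.fPoly = (-T 2 - T (-2)) ^ (c - 1)) :
    c = 1 ∧ (D.IsClosed → IsKnot D → ∀ e, Nugatory Γ e) :=
  Pool.Agent.N569.OD.main Γ hΓ hk R S h D hD c hc hf

end Pool.Agent.Results.MP_42db45_gt.OneSidedDomination
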