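import Pool.Agent.N569.TC.Br

/-!
# Closed braids with full twists whose letters have signs prescribed by their gaps

Starting library: `Pool.Agent.H891R2.Jones.*` (link diagrams, `Diagram.IsClosed`, `Diagram.writhe`,
`Diagram.fPoly`, the normalised bracket `(-A^{-3})^{w(D)} ⟨D⟩`, a Laurent polynomial in `A = T 1`),
`Pool.Agent.W639.RB.Defs` (`Letter m`: the letters `σ_i^{±1}` of the braid group on `m` strands; `toL`;
`(draw (braidClosure m) W).close`: the diagram of the closed braid of the word `W`; a letter is a pair of
its sign, `true` for a positive crossing, and of the number `i` of the first of the two strands, `0 ≤ i`,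
`i + 1 < m`), `Pool.Agent.TH561.PB.State2` (`TW s n k a`: the word of `a` full twists, positive for `s = true` and
negative for `s = false`, of the `n` strands `k, …, k + n - 1`), `Pool.Agent.W639.RB.Words` (`expo W`: the exponent
sum of `W`).

New (`Pool.Agent.N569.TC`): an item (`It`) is a letter `σ_i^{±1}` or consists of `a ≥ 1` positive full twists of the
last `n` of the `m` strands (`It.Fits`); `wd m L`: the braid word of a list of items; `sgd s W`: the word `W` for `s =
true`, the word with the opposite signs (the mirror image) for `s = false`; `eps s`: the sign `1` or `-1`.

A path `s : Fin m → Fin 2` of steps up (`0`) and down (`1`) is read from the right: `Hh s i` is its height after the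
steps `m - 1, …, i`, so `Hh s m = 0`; `Vd s`: no height is negative; `Pk i s`: there is a peak between the steps
`i + 1` and `i`; `It.OK s x`: for a positive letter `σ_i` the path has a peak at `i`, for a negative letter
`σ_i^{-1}` it has no peak at `i`, for full twists of `n` strands its height `Hh s (m - n)` is `0` or `1`.
`pths m L`: the number of the paths `s` with `Vd s`, end height `Hh s 0 ∈ {0, 1}` and `It.OK s x` for all items `x` of
`L`.

`FE m L K = 6 p - 2 q + 3 ∑ a (n² - (n mod 2)) - 2 + 2 (m mod 2)`, where `p` and `q` are the numbers of the positive and
negative letters of `L` and the sum is over all full twists (`a` full twists of `n` strands), those of `L` and the `K`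
full twists of all the `m` strands.

`Alt m c L`: the positive letters of `L` are at gaps (`i`) of parity `c`, the negative letters at gaps of the other
parity, and for every full twist of `n < m` strands the gap `m - n - 1` next to the bundle is one of the negative
gaps; `Full m L`: all the generators occur.

Proof.  The state sum of the closure of a braid with `N` colours (`N = -A^2 - A^{-2}`) is written by means of the
representation of the Temperley-Lieb algebra on the paths, in which the full twist of the last `n` strands is
diagonal with the eigenvalues `A^{h^2 + 2 h - 3 n}`.  For `N → ∞` all letters become (up to units)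
diagonal matrices with entries `0`, `1` and nilpotent matrices; the first-order expansions in `N^{-2}` of
the products are determined by exchanges of neighbouring steps, and an exchange next to a violated condition
contributes `-1`.
-/

set_option autoImplicit false

namespace Pool.Agent.Results.MP_42db45_gt.TwistedAlternating

open Finset LaurentPolynomial Pool.Agent.H891R2.Jones Pool.Agent.W639.RB Pool.Agent.TH561 Pool.Agent.N569.TW
  Pool.Agent.N569.TC

/-- Let `m ≥ 1` and let `L` be any list of items on `m` strands.  Let `D` be the closure of the braid word of `L`
followed by `K ≥ 1` positive full twists `Δ^{2K}` of all the strands, or the mirror image of such a diagram (`s =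
false`).

(1) `D` is a closed oriented diagram, and the coefficient of its normalised bracket in the degree `- FE m L K` (for the
mirror image: `FE m L K`) is up to sign the number of the paths with all conditions, and all the coefficients beyond this
degree vanish.  So if there are such paths then `max deg V = FE m L K / 4` for the Jones polynomial `V(t)`,
`t = A^{-4}`, and `pths m L` is the modulus of the extreme coefficient; and if there are at least two of them, then `V` is
not the Jones polynomial of an unlink, in particular not `1`.

(2) Let `m ≥ 3` and let the letters of `L` be alternating, with all the generators (positive letters at the gaps of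
one parity, negative ones at those of the other parity; bundles bounded by negative gaps).  Then there is exactly
one such path, the extreme coefficient is `± 1`, and the next coefficient (at distance `4`) is not zero and has the
opposite sign.  Hence `V` is not the Jones polynomial of an unlink; in particular `f ≠ 1`.

(3) In particular, let `m ≥ 3` and let `β` be any alternating braid word on `m` strands in which all the
generators occur (positive letters at the gaps of one parity, negative letters at the others).  Then for all `K ≥ 1` and
both signs the Jones polynomial of the closure of `β Δ^{± 2K}` is not the one of an unlink, in particular `f ≠ 1`. -/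
theorem result (m : ℕ) (hm : 1 ≤ m) (s : Bool) (K : ℕ) (hK : 1 ≤ K) :
    (∀ L : List It, (∀ x ∈ L, x.Fits m) → ∀ W : List (Bool × ℕ), W = sgd s (wd m L ++ TW true m 0 K) →
      (draw (braidClosure m) W).close.IsClosed ∧ (draw (braidClosure m) W).close.writhe = expo W ∧
      ∃ ε : ℤ, (ε = 1 ∨ ε = -1) ∧
        (draw (braidClosure m) W).close.fPoly.coeff (-eps s * FE m L K) = ε * pths m L ∧
        (∀ n, FE m L K < n → (draw (braidClosure m) W).close.fPoly.coeff (-eps s * n) = 0) ∧
        (2 ≤ pths m L → ∀ c : ℕ, (draw (braidClosure m) W).close.fPoly ≠ (-T 2 - T (-2)) ^ c) ∧
        (3 ≤ m → ∀ c < 2, Alt m c L → Full m L → pths m L = 1 ∧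
          (∃ σ : ℤ, 1 ≤ σ ∧
            (draw (braidClosure m) W).close.fPoly.coeff (-eps s * (FE m L K - 4)) = -ε * σ) ∧
          (∀ n, FE m L K - 4 < n → n ≠ FE m L K →
            (draw (braidClosure m) W).close.fPoly.coeff (-eps s * n) = 0) ∧
          (draw (braidClosure m) W).close.fPoly ≠ 1 ∧
          ∀ c : ℕ, (draw (braidClosure m) W).close.fPoly ≠ (-T 2 - T (-2)) ^ c)) ∧
    (3 ≤ m → ∀ (l : ℕ) (β : Fin l → Letter m), ∀ c < 2, (∀ i, (β i).1 = true ↔ ((β i).2 : ℕ) % 2 = c) →
      (∀ g, g + 1 < m → ∃ i, ((β i).2 : ℕ) = g) →
      ∀ (W : List (Bool × ℕ)), W = toL β ++ TW s m 0 K →
        (draw (braidClosure m) W).close.IsClosed ∧ (draw (braidClosure m) W).close.writhe = expo W ∧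
        (draw (braidClosure m) W).close.fPoly ≠ 1 ∧
        ∀ c : ℕ, (draw (braidClosure m) W).close.fPoly ≠ (-T 2 - T (-2)) ^ c) := by
  constructor
  · rintro L hL W rfl
    exact full_main hm L hL K hK s
  · rintro hm3 l β c hc hβ hall W rfl
    exact braid_main hm3 s K hK l β c hc hβ hall

end Pool.Agent.Results.MP_42db45_gt.TwistedAlternating
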